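import Mathlib
import Pool.Agent.RED.Mink

/-!
# Subgroups of bounded exponent of `GL (m, ℤ)` are finite
-/

set_option autoImplicit false

namespace RED

/-- a subgroup of `GL (m, ℤ)` of bounded exponent is finite -/
theorem mink_nc {m : ℕ} (A : Subgroup (Matrix.GeneralLinearGroup (Fin m) ℤ))
    {N : ℕ} (hN : 0 < N) (hA : ∀ x ∈ A, x ^ N = 1) :
    Finite A := by
  obtain ⟨F, hF⟩ : ∃ F : Matrix.GeneralLinearGroup (Fin m) ℤ →*
      Matrix.GeneralLinearGroup (Fin m) (ZMod 3),
      F = Matrix.GeneralLinearGroup.map (Int.castRingHom (ZMod 3)) := ⟨_, rfl⟩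
  have hinj : Function.Injective (fun x : A => F x.1) := by
    intro x y hxy
    have h1 : F (x.1⁻¹ * y.1) = 1 := by
      have hxy' : F x.1 = F y.1 := hxy
      rw [map_mul, map_inv, hxy', inv_mul_cancel]
    have hmem : x.1⁻¹ * y.1 ∈ A := A.mul_mem (A.inv_mem x.2) y.2
    obtain ⟨z, hz⟩ : ∃ z, z = x.1⁻¹ * y.1 := ⟨_, rfl⟩
    rw [← hz] at h1 hmem
    have h2 : ∃ Y : Matrix (Fin m) (Fin m) ℤ, z.1 = 1 + (3 : ℤ) • Y := by
      have h3 : ∀ i j, ∃ c : ℤ, z.1 i j = (1 : Matrix (Fin m) (Fin m) ℤ) i j + 3 * c := by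
        intro i j
        have h4 : (F z).1 i j = (1 : Matrix (Fin m) (Fin m) (ZMod 3)) i j := by rw [h1]; rfl
        have h5 : (F z).1 i j = ((z.1 i j : ℤ) : ZMod 3) := by rw [hF]; rfl
        have h6 : (1 : Matrix (Fin m) (Fin m) (ZMod 3)) i j =
            (((1 : Matrix (Fin m) (Fin m) ℤ) i j : ℤ) : ZMod 3) := by
          rw [Matrix.one_apply, Matrix.one_apply]
          split_ifs <;> simp
        rw [h5, h6, eq_comm, ZMod.intCast_eq_intCast_iff_dvd_sub] at h4
        obtain ⟨c, hc'⟩ := h4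
        refine ⟨c, ?_⟩
        push_cast at hc'
        linarith
      choose c hc' using h3
      refine ⟨Matrix.of c, ?_⟩
      ext i j
      rw [Matrix.add_apply, Matrix.smul_apply, smul_eq_mul, hc']
      rfl
    have h7 : z.1 ^ N = 1 := by
      have := hA z hmem
      have h8 := congrArg Units.val this
      rw [Units.val_pow_eq_pow_val, Units.val_one] at h8
      exact h8
    obtain ⟨a, q, hq, hNq⟩ := Nat.exists_eq_pow_mul_and_not_dvd hN.ne' 3 (by norm_num)
    rw [hNq] at h7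
    have h9 := mk_torsion h2 a q hq h7
    have h10 : z = 1 := Units.ext h9
    rw [hz, inv_mul_eq_one] at h10
    exact Subtype.ext h10
  exact Finite.of_injective _ hinj

end RED
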