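import Mathlib
import Pool.Agent.RED.HypMain
import Pool.Agent.RED6.Mink6

/-!
# The hypotheses of part B for representations, without the bound on the dimension
-/

set_option autoImplicit false
set_option linter.style.haveILetI false

namespace RED

open AFn IAQ

section Rep

variable {n m : ℕ} {G : Type*} [Group G] (g : Fin n → G) (I : Finset (Fin n))
  (Hin : Subgroup (MulAut (FreeGroup (Fin n))))
  (ρ : Hin →* Matrix.GeneralLinearGroup (Fin m) ℤ)

theorem hyp_main_of6 (hf : Hin.FiniteIndex) (hm : m + 2 ≤ n) (hΓ : Gam g ≤ Hin)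
    (h1 : ∀ i ∈ I, g i = 1) (hI : 2 ≤ I.card)
    (hS2 : ∀ a, ∀ u ∈ UU I a, ∀ u' ∈ UU I a, R a (u * u' * u⁻¹ * u'⁻¹) ∈ KerH Hin ρ)
    (hmink : ∀ A : Subgroup (Matrix.GeneralLinearGroup (Fin m) ℤ),
      (∀ x ∈ A, ∀ y ∈ A, x * y = y * x) → ∀ N : ℕ, 0 < N → (∀ x ∈ A, x ^ N = 1) → Finite A) :
    Hyp g I (ρ.comp (Subgroup.inclusion hΓ)) := by
  classical
  obtain ⟨N, hN, hK0⟩ := K0 Hin ρ hf hm
  have hkap : kap Hin ρ ≤ KerH Hin ρ := Subgroup.normalCore_le _
  obtain ⟨f, hf'⟩ : ∃ f : Gam g →* Matrix.GeneralLinearGroup (Fin m) ℤ,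
    f = ρ.comp (Subgroup.inclusion hΓ) := ⟨_, rfl⟩
  rw [← hf']
  have hker : ∀ φ, φ ∈ Gam g → φ ∈ KerH Hin ρ → fe g f φ = 1 := by
    intro φ h h'
    rw [hf']
    exact hm_fe_eq_one g Hin ρ hΓ h h'
  have hS : ∀ a, ∀ u ∈ UU I a, ∀ u' ∈ UU I a, Commute (fe g f (R a u)) (fe g f (R a u')) := by
    intro a u hu u' hu'
    have h2 := hker _ (hm_UU h1 ((UU I a).mul_mem ((UU I a).mul_mem ((UU I a).mul_mem hu hu')
      ((UU I a).inv_mem hu)) ((UU I a).inv_mem hu'))) (hS2 a u hu u' hu')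
    have m1 := hm_UU h1 hu
    have m2 := hm_UU h1 hu'
    rw [map_mul, map_mul, map_mul, map_inv, map_inv, fe_mul g f ((Gam g).mul_mem ((Gam g).mul_mem
      m1 m2) ((Gam g).inv_mem m1)) ((Gam g).inv_mem m2), fe_mul g f ((Gam g).mul_mem m1 m2)
      ((Gam g).inv_mem m1), fe_mul g f m1 m2, fe_inv g f m1, fe_inv g f m2, mul_inv_eq_one,
      mul_inv_eq_iff_eq_mul] at h2
    exact h2
  have hAfin : ∀ i ∈ I, {x | ∃ u ∈ UU I i, x = fe g f (R i u)}.Finite := by
    intro i hi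
    obtain ⟨A, hA⟩ : ∃ A : Subgroup (Matrix.GeneralLinearGroup (Fin m) ℤ),
        ∀ x, x ∈ A ↔ ∃ u ∈ UU I i, x = fe g f (R i u) := by
      refine ⟨{ carrier := {x | ∃ u ∈ UU I i, x = fe g f (R i u)}
                one_mem' := ⟨1, (UU I i).one_mem, by rw [map_one, fe_one]⟩
                mul_mem' := ?_
                inv_mem' := ?_ }, fun x => Iff.rfl⟩
      · rintro _ _ ⟨u, hu, rfl⟩ ⟨u', hu', rfl⟩
        exact ⟨u * u', (UU I i).mul_mem hu hu', by
          rw [map_mul, fe_mul g f (hm_UU h1 hu) (hm_UU h1 hu')]⟩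
      · rintro _ ⟨u, hu, rfl⟩
        exact ⟨u⁻¹, (UU I i).inv_mem hu, by rw [map_inv, fe_inv g f (hm_UU h1 hu)]⟩
    have hcomm : ∀ x ∈ A, ∀ y ∈ A, x * y = y * x := by
      intro x hx y hy
      obtain ⟨u, hu, rfl⟩ := (hA x).1 hx
      obtain ⟨u', hu', rfl⟩ := (hA y).1 hy
      exact hS i u hu u' hu'
    -- the exponent
    obtain ⟨D, hD⟩ : ∃ D : Subgroup (FreeGroup (Fin n)),
        ∀ u, u ∈ D ↔ u ∈ UU I i ∧ fe g f (R i u) ^ N = 1 := by
      refine ⟨{ carrier := {u | u ∈ UU I i ∧ fe g f (R i u) ^ N = 1}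
                one_mem' := ⟨(UU I i).one_mem, by rw [map_one, fe_one, one_pow]⟩
                mul_mem' := ?_
                inv_mem' := ?_ }, fun x => Iff.rfl⟩
      · rintro u u' ⟨hu, hu2⟩ ⟨hu', hu2'⟩
        refine ⟨(UU I i).mul_mem hu hu', ?_⟩
        rw [map_mul, fe_mul g f (hm_UU h1 hu) (hm_UU h1 hu'), (hS i u hu u' hu').mul_pow, hu2,
          hu2', mul_one]
      · rintro u ⟨hu, hu2⟩
        refine ⟨(UU I i).inv_mem hu, ?_⟩
        rw [map_inv, fe_inv g f (hm_UU h1 hu), inv_pow, hu2, inv_one]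
    have hDU : ∀ u ∈ UU I i, u ∈ D := by
      intro u hu
      have h2 := hm_UU_closure hi hu
      refine (Subgroup.closure_le D).2 ?_ h2
      rintro _ ⟨j, hj, hji, w, hw, rfl⟩
      rw [SetLike.mem_coe, hD]
      have hmem : w * FreeGroup.of j * w⁻¹ ∈ UU I i := by
        have e1 : ret Iᶜ (FreeGroup.of j) = 1 := by simp [ret, hj]
        refine ⟨?_, ?_⟩
        · rw [map_mul, map_mul, map_inv, e1, mul_one, mul_inv_cancel]
        · rw [map_mul, map_mul, map_inv, hw, kill_of_ne hji]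
      refine ⟨hmem, ?_⟩
      rw [← hm_fe_pow g f (hm_UU h1 hmem)]
      refine hker _ ((Gam g).pow_mem (hm_UU h1 hmem) N) (hkap ?_)
      have e : R i (w * FreeGroup.of j * w⁻¹) ^ N = C i w * R i (FreeGroup.of j) ^ N * (C i w)⁻¹ := by
        rw [← C_conj_R, conj_pow]
      rw [e]
      exact (kap_normal Hin ρ).conj_mem _ (hK0 i j).1 _
    have hfin : Finite A := by
      refine hmink A hcomm N hN ?_
      intro x hx
      obtain ⟨u, hu, rfl⟩ := (hA x).1 hx
      exact ((hD u).1 (hDU u hu)).2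
    have h3 : {x | ∃ u ∈ UU I i, x = fe g f (R i u)} = (A : Set _) := by
      ext x
      exact (hA x).symm
    rw [h3]
    exact Set.toFinite _
  refine ⟨h1, hS, hAfin, ?_, ?_⟩
  · -- (B)
    intro i hi
    have hi' : i ∉ Iᶜ := by simpa using hi
    obtain ⟨j0, hj0, hj0i⟩ : ∃ j0 ∈ I, j0 ≠ i := by
      obtain ⟨a, ha, b, hb, hab⟩ := Finset.one_lt_card.1 (show 1 < I.card by omega)
      by_cases h : a = i
      · exact ⟨b, hb, fun h2 => hab (h.trans h2.symm)⟩
      · exact ⟨a, ha, h⟩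
    have hj0' : j0 ∉ Iᶜ := by simpa using hj0
    have hval : ∀ k ∈ fsub Iᶜ, ev g k = 1 → R i k ∈ Gam g := by
      intro k hk hk1
      refine hm_ev_R g ?_
      rw [kill_eq hk hi', hk1]
    have hXU : FreeGroup.of j0 ∈ UU I i := by
      refine ⟨?_, kill_of_ne hj0i⟩
      simp [ret, hj0]
    -- the groups
    obtain ⟨A, hA⟩ : ∃ A : Subgroup (Matrix.GeneralLinearGroup (Fin m) ℤ),
        ∀ x, x ∈ A ↔ ∃ u ∈ UU I i, x = fe g f (R i u) := by
      refine ⟨{ carrier := {x | ∃ u ∈ UU I i, x = fe g f (R i u)}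
                one_mem' := ⟨1, (UU I i).one_mem, by rw [map_one, fe_one]⟩
                mul_mem' := ?_
                inv_mem' := ?_ }, fun x => Iff.rfl⟩
      · rintro _ _ ⟨u, hu, rfl⟩ ⟨u', hu', rfl⟩
        exact ⟨u * u', (UU I i).mul_mem hu hu', by
          rw [map_mul, fe_mul g f (hm_UU h1 hu) (hm_UU h1 hu')]⟩
      · rintro _ ⟨u, hu, rfl⟩
        exact ⟨u⁻¹, (UU I i).inv_mem hu, by rw [map_inv, fe_inv g f (hm_UU h1 hu)]⟩
    have hAset : (A : Set (Matrix.GeneralLinearGroup (Fin m) ℤ)) =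
        {x | ∃ u ∈ UU I i, x = fe g f (R i u)} := by
      ext x
      exact hA x
    have hAf : (A : Set (Matrix.GeneralLinearGroup (Fin m) ℤ)).Finite := by
      rw [hAset]
      exact hAfin i hi
    obtain ⟨Y, hY⟩ : ∃ Y : Subgroup (Matrix.GeneralLinearGroup (Fin m) ℤ),
        ∀ x, x ∈ Y ↔ ∃ k ∈ fsub Iᶜ, ev g k = 1 ∧ x = fe g f (R i k) := by
      refine ⟨{ carrier := {x | ∃ k ∈ fsub Iᶜ, ev g k = 1 ∧ x = fe g f (R i k)}
                one_mem' := ⟨1, (fsub Iᶜ).one_mem, map_one _, by rw [map_one, fe_one]⟩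
                mul_mem' := ?_
                inv_mem' := ?_ }, fun x => Iff.rfl⟩
      · rintro _ _ ⟨k, hk, hk1, rfl⟩ ⟨k', hk', hk1', rfl⟩
        exact ⟨k * k', (fsub Iᶜ).mul_mem hk hk', by rw [map_mul, hk1, hk1', one_mul], by
          rw [map_mul, fe_mul g f (hval k hk hk1) (hval k' hk' hk1')]⟩
      · rintro _ ⟨k, hk, hk1, rfl⟩
        exact ⟨k⁻¹, (fsub Iᶜ).inv_mem hk, by rw [map_inv, hk1, inv_one], by
          rw [map_inv, fe_inv g f (hval k hk hk1)]⟩
    -- `Y` normalises `A`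
    have hnorm : ∀ y ∈ Y, ∀ x ∈ A, y * x * y⁻¹ ∈ A := by
      intro y hy x hx
      obtain ⟨k, hk, hk1, rfl⟩ := (hY y).1 hy
      obtain ⟨u, hu, rfl⟩ := (hA x).1 hx
      have hkk : kill i k = k := kill_eq hk hi'
      have hmem : k * u * k⁻¹ ∈ UU I i := by
        refine ⟨?_, ?_⟩
        · rw [map_mul, map_mul, map_inv, hu.1, mul_one, mul_inv_cancel]
        · rw [map_mul, map_mul, map_inv, hu.2, hkk]
      refine (hA _).2 ⟨k * u * k⁻¹, hmem, ?_⟩
      rw [map_mul, map_mul, map_inv, fe_mul g f ((Gam g).mul_mem (hval k hk hk1) (hm_UU h1 hu))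
        ((Gam g).inv_mem (hval k hk hk1)), fe_mul g f (hval k hk hk1) (hm_UU h1 hu),
        fe_inv g f (hval k hk hk1)]
    -- the elements of `Y` centralising `A` have bounded order
    have hcent : ∀ y ∈ Y, (∀ x ∈ A, y * x = x * y) → y ^ N = 1 := by
      intro y hy hyx
      obtain ⟨k, hk, hk1, rfl⟩ := (hY y).1 hy
      have hkk : kill i k = k := kill_eq hk hi'
      have hkj : kill j0 k = k := kill_eq hk hj0'
      have hX : fe g f (R i (FreeGroup.of j0)) ∈ A := (hA _).2 ⟨_, hXU, rfl⟩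
      have hXm : R i (FreeGroup.of j0) ∈ Gam g := hm_UU h1 hXU
      have hXN : fe g f (R i (FreeGroup.of j0)) ^ N = 1 := by
        rw [← hm_fe_pow g f hXm]
        exact hker _ ((Gam g).pow_mem hXm N) (hkap (hK0 i j0).1)
      have e1 : R j0 k * R i (FreeGroup.of j0) * (R j0 k)⁻¹ = R i (FreeGroup.of j0 * k) := by
        rw [(pres_R hj0i.symm hkk).conj_R, kill_of_ne hj0i, R_of_self, hkj]
      have hXkm : R i (FreeGroup.of j0 * k) ∈ Gam g := by
        rw [map_mul]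
        exact (Gam g).mul_mem hXm (hval k hk hk1)
      have hXkN : fe g f (R i (FreeGroup.of j0 * k)) ^ N = 1 := by
        rw [← hm_fe_pow g f hXkm]
        refine hker _ ((Gam g).pow_mem hXkm N) (hkap ?_)
        rw [← e1, conj_pow]
        exact (kap_normal Hin ρ).conj_mem _ (hK0 i j0).1 _
      rw [map_mul, fe_mul g f hXm (hval k hk hk1)] at hXkN
      have hcom : Commute (fe g f (R i (FreeGroup.of j0))) (fe g f (R i k)) := (hyx _ hX).symm
      rwa [hcom.mul_pow, hXN, one_mul] at hXkN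
    obtain ⟨C, hC⟩ : ∃ C : Subgroup (Matrix.GeneralLinearGroup (Fin m) ℤ),
        ∀ y, y ∈ C ↔ y ∈ Y ∧ ∀ x ∈ A, y * x = x * y := by
      refine ⟨Y ⊓ Subgroup.centralizer (A : Set _), fun y => ?_⟩
      rw [Subgroup.mem_inf, Subgroup.mem_centralizer_iff]
      constructor
      · rintro ⟨h2, h3⟩
        exact ⟨h2, fun x hx => (h3 x hx).symm⟩
      · rintro ⟨h2, h3⟩
        exact ⟨h2, fun x hx => (h3 x hx).symm⟩
    have hCf : Finite C := mink_nc C hN fun y hy => hcent y ((hC y).1 hy).1 ((hC y).1 hy).2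
    have hCs : (C : Set (Matrix.GeneralLinearGroup (Fin m) ℤ)).Finite := Set.toFinite _
    have hAt : Finite A := hAf
    have hYf : (Y : Set (Matrix.GeneralLinearGroup (Fin m) ℤ)).Finite := by
      refine Set.Finite.of_finite_fibers
        (fun y : Matrix.GeneralLinearGroup (Fin m) ℤ => fun x : A => y * x.1 * y⁻¹) ?_ ?_
      · refine (Set.Finite.pi' (fun _ : A => hAf)).subset ?_
        rintro _ ⟨y, hy, rfl⟩ x
        exact hnorm y hy x.1 x.2
      · rintro _ ⟨y0, hy0, rfl⟩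
        refine (hCs.image (fun c => y0 * c)).subset ?_
        rintro y ⟨hy, hyx⟩
        have hyx' : ∀ x ∈ A, y * x * y⁻¹ = y0 * x * y0⁻¹ := fun x hx =>
          congrFun (Set.mem_singleton_iff.1 hyx) ⟨x, hx⟩
        refine ⟨y0⁻¹ * y, (hC _).2 ⟨Y.mul_mem (Y.inv_mem hy0) hy, fun x hx => ?_⟩, by
          show y0 * (y0⁻¹ * y) = y
          rw [mul_inv_cancel_left]⟩
        have h2 := hyx' x hx
        rw [mul_inv_eq_iff_eq_mul] at h2
        rw [mul_assoc, h2]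
        group
    refine hYf.subset ?_
    rintro _ ⟨k, hk, hk1, rfl⟩
    exact (hY _).2 ⟨k, hk, hk1, rfl⟩
  · -- (O)
    intro j hj i hi
    have hji : i ≠ j := fun h => hj (h ▸ hi)
    have hmem : R j (FreeGroup.of i) ∈ Gam g := by
      refine hm_ev_R g ?_
      rw [kill_of_ne hji, ev_of, h1 i hi]
    rw [isOfFinOrder_iff_pow_eq_one]
    refine ⟨N, hN, ?_⟩
    rw [← hm_fe_pow g f hmem]
    exact hker _ ((Gam g).pow_mem hmem N) (hkap (hK0 j i).1)

/-- the hypotheses hold, without a bound on the rank of the complement -/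
theorem hyp_main6 (hf : Hin.FiniteIndex) (hm : m + 2 ≤ n) (hΓ : Gam g ≤ Hin)
    (h1 : ∀ i ∈ I, g i = 1) (hI : 5 ≤ I.card) :
    Hyp g I (ρ.comp (Subgroup.inclusion hΓ)) :=
  hyp_main_of6 g I Hin ρ hf hm hΓ h1 (by omega)
    (S2 g I Hin ρ hΓ h1 hI fun _ i hi i' hi' hii hai hai' =>
      S1 g Hin ρ hf hm hΓ hii hai hai' (h1 i hi) (h1 i' hi'))
    (fun A hc _ hN hA => mink A hc hN hA)

end Rep

end RED
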