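import Mathlib
import Pool.Agent.RED6.HypMain6
import Pool.Agent.RED5.Chain5

/-!
# Finite image, without the bound on the dimension
-/

set_option autoImplicit false

namespace RED

open AFn IAQ

theorem final_gam_range7 {n m : ℕ} {G : Type*} [Group G]
    (g : Fin n → G) (Hin : Subgroup (MulAut (FreeGroup (Fin n))))
    (ρ : Hin →* Matrix.GeneralLinearGroup (Fin m) ℤ) (I : Finset (Fin n)) (hI : 5 ≤ I.card)
    (hf : Hin.FiniteIndex) (hm : m + 2 ≤ n)
    (hΓ : Gam g ≤ Hin) (h1 : ∀ i ∈ I, g i = 1) [Finite G] (hN : Gam g ≤ NN g) :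
    {y | ∃ (x : MulAut (FreeGroup (Fin n))) (hx : x ∈ Gam g), y = ρ ⟨x, hΓ hx⟩}.Finite := by
  have hyp : Hyp g I (ρ.comp (Subgroup.inclusion hΓ)) :=
    hyp_main6 g I Hin ρ hf hm hΓ h1 hI
  have hE := all_finite g I (ρ.comp (Subgroup.inclusion hΓ)) hyp hI
  set E := Subgroup.closure {x | ∃ φ, φ ∈ Gam g ∧ (∃ c, φ ∈ Mv c) ∧
    x = fe g (ρ.comp (Subgroup.inclusion hΓ)) φ} with hEd
  have key : ∀ φ ∈ NN g, φ ∈ Gam g ∧ fe g (ρ.comp (Subgroup.inclusion hΓ)) φ ∈ E := by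
    intro φ hφ
    induction hφ using Subgroup.closure_induction with
    | mem x hx =>
      exact ⟨hx.1, Subgroup.subset_closure ⟨x, hx.1, hx.2, rfl⟩⟩
    | one => exact ⟨(Gam g).one_mem, by rw [fe_one]; exact E.one_mem⟩
    | mul x y _ _ hx hy =>
      refine ⟨(Gam g).mul_mem hx.1 hy.1, ?_⟩
      rw [fe_mul _ _ hx.1 hy.1]
      exact E.mul_mem hx.2 hy.2
    | inv x _ hx =>
      refine ⟨(Gam g).inv_mem hx.1, ?_⟩
      rw [fe_inv _ _ hx.1]
      exact E.inv_mem hx.2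
  have hEf : (E : Set (Matrix.GeneralLinearGroup (Fin m) ℤ)).Finite := Set.toFinite _
  refine hEf.subset ?_
  rintro y ⟨x, hx, rfl⟩
  have h2 := (key x (hN hx)).2
  rw [fe_of_mem _ _ hx] at h2
  exact h2

theorem final7_std {n m : ℕ} {G : Type*} [Group G] [Finite G]
    (g : Fin n → G) (Hin : Subgroup (MulAut (FreeGroup (Fin n))))
    (ρ : Hin →* Matrix.GeneralLinearGroup (Fin m) ℤ) (I : Finset (Fin n)) (hI : 5 ≤ I.card)
    (hf : Hin.FiniteIndex) (hm : m + 2 ≤ n)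
    (hΓ : Gam g ≤ Hin) (φ : MulAut (FreeGroup (Fin n)))
    (h1 : ∀ i ∈ I, act φ g i = 1) (hN : Gam (act φ g) ≤ NN (act φ g)) : Finite ρ.range := by
  set cj : MulAut (FreeGroup (Fin n)) →* MulAut (FreeGroup (Fin n)) :=
    (MulAut.conj φ⁻¹).toMonoidHom with hcj
  have hcja : ∀ x, cj x = φ⁻¹ * x * φ := by
    intro x
    show φ⁻¹ * x * φ⁻¹⁻¹ = _
    rw [inv_inv]
  have hΓ' : Gam (act φ g) ≤ Hin.comap cj := by
    intro x hx
    rw [Subgroup.mem_comap, hcja]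
    apply hΓ
    have h2 := Gam_conj hx φ⁻¹
    rwa [act_inv_act, inv_inv] at h2
  have hsj : Function.Surjective cj := (MulAut.conj φ⁻¹).surjective
  have hfi : (Hin.comap cj).FiniteIndex :=
    ⟨by rw [Subgroup.index_comap_of_surjective Hin hsj]; exact hf.index_ne_zero⟩
  have h3 := final_gam_range7 (act φ g) (Hin.comap cj) (ρ.comp (cj.subgroupComap Hin)) I hI
    hfi hm hΓ' h1 hN
  refine final_of_finite g Hin ρ hΓ (h3.subset ?_)
  rintro y ⟨x, hx, rfl⟩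
  refine ⟨φ * x * φ⁻¹, Gam_conj hx φ, ?_⟩
  show ρ _ = ρ _
  congr 1
  apply Subtype.ext
  show x = cj (φ * x * φ⁻¹)
  rw [hcja]
  group

theorem final_chain7 {n m r s d l t : ℕ} {G : Type*} [Group G] [Finite G] (N : ℕ → Subgroup G)
    [∀ i, (N i).Normal] (h0 : N 0 = ⊥) (hN : ∀ i < t, N i ≤ N (i + 1))
    (hfac : ∀ i < t, Sol.LB (N i) (N (i + 1)) l) (hr : RB G r) (hs : RB (G ⧸ N t) s)
    (hd : MB (G ⧸ N t) d)
    (hsr : s ≤ r) (g : Fin n → G) (hg : Function.Surjective (ev g))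
    (Hin : Subgroup (MulAut (FreeGroup (Fin n))))
    (ρ : Hin →* Matrix.GeneralLinearGroup (Fin m) ℤ)
    (hn : r + 5 ≤ n) (hl : r + 3 * l + 2 ≤ n) (hn2 : 4 * s + 2 * d + 5 ≤ n)
    (hf : Hin.FiniteIndex) (hm : m + 2 ≤ n) (hΓ : Gam g ≤ Hin) : Finite ρ.range := by
  classical
  have hgu : Gen g Finset.univ := gen_univ6 hg
  have hgK : Function.Surjective (ev (fun x => QuotientGroup.mk' (N t) (g x))) := by
    intro y
    obtain ⟨x, rfl⟩ := QuotientGroup.mk'_surjective (N t) y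
    obtain ⟨w, rfl⟩ := hg x
    exact ⟨w, Sol.rad_ev (QuotientGroup.mk' (N t)) g w⟩
  obtain ⟨φ0, I0, hI0, hgen0, h10⟩ := exists_std2 hs hd hn2 _ hgK
  -- a set of `r` letters containing the complement of `I0`
  obtain ⟨J, hJ1, hJ2⟩ := Finset.exists_superset_card_eq (s := I0ᶜ) (n := r)
    (hI0.trans hsr) (by rw [Fintype.card_fin]; omega)
  have hJc : (Jᶜ : Finset (Fin n)).card = n - r := by
    rw [Finset.card_compl, Fintype.card_fin, hJ2]
  have hJI : (Jᶜ : Finset (Fin n)) ⊆ I0 := by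
    intro x hx
    by_contra h
    exact (Finset.mem_compl.1 hx) (hJ1 (Finset.mem_compl.2 h))
  have hI : 5 ≤ (Jᶜ : Finset (Fin n)).card := by omega
  have hLg : Sol.Lg (Jᶜ : Finset (Fin n)) l := ⟨hI, by omega⟩
  have hr' : RB G (Jᶜᶜ : Finset (Fin n)).card := by rw [compl_compl, hJ2]; exact hr
  -- the tuples of the quotient by `N t`
  have hPt : Sol.PrG (Jᶜ : Finset (Fin n)) (G ⧸ N t) := by
    intro k hk1 hk2
    have hku : Function.Surjective (ev k) := fun y => by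
      obtain ⟨w, -, hw⟩ := hk2 y
      exact ⟨w, hw⟩
    exact (gen_all2 hs hd hn2 k hku).trans
      (NS_std (Finset.card_pos.1 (by omega)) hk2 hk1)
  have hP0 := Sol.chain_gam N hLg t hN hfac hPt
  have hSt : Sol.StT (Jᶜ : Finset (Fin n)) (fun x => QuotientGroup.mk' (N t) (g x)) :=
    ⟨φ0, by rw [compl_compl]; exact Gen_mono hJ1 hgen0, fun i hi => h10 i (hJI hi)⟩
  obtain ⟨φ1, h1, h2⟩ := Sol.chain_std N hLg hr' hgu t hN hfac hSt
  -- the quotient by `N 0 = ⊥`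
  have hker : (QuotientGroup.mk' (N 0)).ker = ⊥ := by rw [QuotientGroup.ker_mk', h0]
  have hsol : Group.IsSolvable (QuotientGroup.mk' (N 0)).ker := by
    have : Subsingleton (QuotientGroup.mk' (N 0)).ker := by rw [hker]; infer_instance
    infer_instance
  have hg1u : Gen (act φ1 g) Finset.univ := Sol.gac_gen_act φ1 hgu
  have hcg1 : (fun x => QuotientGroup.mk' (N 0) (act φ1 g x)) =
      act φ1 (fun x => QuotientGroup.mk' (N 0) (g x)) := (Sol.gac_act_map _ _ _).symm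
  obtain ⟨φ2, h3, h4⟩ := Sol.rad_std hI (Nat.card (QuotientGroup.mk' (N 0)).ker) G
    (QuotientGroup.mk' (N 0)) (QuotientGroup.mk'_surjective _) hsol le_rfl hr' (act φ1 g) hg1u
    (fun i hi => by
      have := congrFun hcg1 i
      rw [this]
      exact h2 i hi)
    (by rw [hcg1]; exact h1)
  have hN' : Gam (act φ2 (act φ1 g)) ≤ NN (act φ2 (act φ1 g)) :=
    Sol.rad_gam hI hP0 (Nat.card (QuotientGroup.mk' (N 0)).ker) G
      (QuotientGroup.mk' (N 0)) (QuotientGroup.mk'_surjective _) hsol le_rfl _ h4 h3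
  refine final7_std g Hin ρ Jᶜ hI hf hm hΓ (φ2 * φ1) ?_ ?_
  · intro i hi
    rw [act_mul]
    exact h4 i hi
  · rw [act_mul]
    exact hN'

theorem final_chain7' {n m r s d l t : ℕ} {G : Type*} [Group G] [Finite G]
    (N : ℕ → Subgroup G)
    [∀ i, (N i).Normal] (h0 : N 0 = ⊥) (hN : ∀ i < t, N i ≤ N (i + 1))
    (hfac : ∀ i < t, Sol.LB (N i) (N (i + 1)) l) (hr : RB G r) (hs : RB (G ⧸ N t) s)
    (hd : MB (G ⧸ N t) d) (g : Fin n → G) (hg : Function.Surjective (ev g))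
    (Hin : Subgroup (MulAut (FreeGroup (Fin n))))
    (ρ : Hin →* Matrix.GeneralLinearGroup (Fin m) ℤ)
    (hn : r + 5 ≤ n) (hl : r + 3 * l + 2 ≤ n) (hn2 : 4 * s + 2 * d + 5 ≤ n)
    (hf : Hin.FiniteIndex) (hm : m + 2 ≤ n) (hΓ : Gam g ≤ Hin) : Finite ρ.range :=
  final_chain7 (s := min s r) N h0 hN hfac hr (rb_min6 hs (rb_quot6 _ hr)) hd
    (min_le_right _ _) g hg Hin ρ hn hl (by have := min_le_left s r; omega) hf hm hΓ

end RED
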